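import Pool.Agent.MWGR.StmtsF

/-!
# Row JRP of block MWGR
-/

namespace Pool.Agent.MWGR.H7

open Pool.Agent.Helper14_MV Pool.Agent.Helper2_MV Pool.Agent.MVO Pool.Agent.MWL Pool.Agent.MWS
  Pool.Agent.MWH Pool.Agent.MWGR Pool.Agent.MWA

/-- the words of the row -/
def jrpB0 : ℕ → List ℕ := fun j => [[0, 0], [1, 0, 0], [1]].getD j []

/-- the words of the row -/
def jrpB1 (n : ℕ) : ℕ → List ℕ := fun j => [[0, 0], X n ++ [1, 0, 0], [1]].getD j []

/-- the invariant set -/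
def jrpA (B : ℕ → List ℕ) : Prop :=
  ∃ h t r, 2 ≤ h ∧ 1 ≤ t ∧ 1 ≤ r ∧ B 0 = X h ∧ B 1 = 1 :: X t ∧ B 2 = Y r

theorem asm2 (B : ℕ → List ℕ) : asm 2 B = (B 0 ++ 2 :: B 1) ++ 3 :: B 2 := rfl

theorem deg2 (a : ℕ → ℕ) : deg 2 a = a 0 + a 1 + a 2 := by
  unfold deg
  simp [Finset.sum_range_succ]

theorem le2 {j : ℕ} (hj : j ≤ 2) : j = 0 ∨ j = 1 ∨ j = 2 := by omega

theorem cnt_X0 (k : ℕ) : (X k).count 0 = k := by simp [X]
theorem cnt_X1 (k : ℕ) : (X k).count 1 = 0 := by simp [X, List.count_replicate]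
theorem cnt_Y0 (k : ℕ) : (Y k).count 0 = 0 := by simp [Y, List.count_replicate]
theorem cnt_Y1 (k : ℕ) : (Y k).count 1 = k := by simp [Y]

theorem jrp_ok0 : OkB 2 jrpB0 := by
  constructor
  · intro j hj c hc
    unfold NS
    rcases le2 hj with rfl | rfl | rfl <;> simp [jrpB0] at hc <;> omega
  · intro j hj c hc
    rw [deg2]
    rcases le2 hj with rfl | rfl | rfl <;> simp only [jrpB0, List.getD_cons_zero,
      List.getD_cons_succ, List.mem_cons, List.not_mem_nil, or_false] at hc ⊢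
    · have : c = 0 := by tauto
      subst this; decide
    · have : c = 0 ∨ c = 1 := by tauto
      rcases this with rfl | rfl <;> decide
    · subst hc; decide

theorem jrp_ok1 (n : ℕ) : OkB 2 (jrpB1 n) := by
  constructor
  · intro j hj c hc
    unfold NS
    rcases le2 hj with rfl | rfl | rfl
    · simp [jrpB1] at hc; omega
    · simp [jrpB1, X, List.mem_replicate] at hc; omega
    · simp [jrpB1] at hc; omega
  · intro j hj c hc
    rw [deg2]
    have hc' : c = 0 ∨ c = 1 := by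
      rcases le2 hj with rfl | rfl | rfl
      · simp [jrpB1] at hc; omega
      · simp [jrpB1, X, List.mem_replicate] at hc; omega
      · simp [jrpB1] at hc; omega
    rcases hc' with rfl | rfl
    · simp [jrpB1, X]
    · simp [jrpB1, X, List.count_replicate]

theorem jrp_l (n : ℕ) : asm 2 jrpB0 = Ed.rh'.l n := rfl

theorem jrp_r (n : ℕ) : asm 2 (jrpB1 n) = Ed.rh'.r n := by
  rw [asm2]
  simp [jrpB1, Ed.r]

theorem jrp (h1 : JpigStmt) (h2 : BgbStmt) (h3 : MnbStmt) (h4 : StwStmt) (h5 : FrmStmt)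
    (h6 : ImpStmt) (h7 : EalStmt) (h8 : DalStmt) (h9 : NtpStmt) : JrpStmt := by
  intro n β hB
  obtain ⟨hbas, _⟩ := h2 n β hB
  have key := h1 β hbas.cap 2 jrpB0 (jrpB1 n) jrpA jrp_ok0 (jrp_ok1 n)
    ⟨2, 2, 1, le_refl _, by omega, le_refl _, rfl, rfl, rfl⟩
    (by
      rintro ⟨h, t, r, -, -, -, -, hb, -⟩
      have hn := hB.pos
      obtain ⟨m, rfl⟩ : ∃ m, n = m + 1 := ⟨n - 1, by omega⟩
      simp [jrpB1, X, List.replicate_succ] at hb)
    (by
      rintro B B' hBB ⟨h, t, r, a1, a2, a3, a4, a5, a6⟩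
      exact ⟨h, t, r, a1, a2, a3, by rw [← hBB 0 (by omega), a4], by rw [← hBB 1 (by omega), a5],
        by rw [← hBB 2 (by omega), a6]⟩)
    ?_
  · rw [jrp_l n, jrp_r n] at key
    exact key
  intro θ hle hnc hnot B B' hok hok' hS hS' hr hA
  have hBθ := (h3 n β θ hle).1 hB
  have hR : ¬ Rh' n (RR θ) := by
    rw [jrp_l n, jrp_r n] at hnot
    exact hnot
  have hE : ¬ Has n (FC.ofFIC θ) Bit.E := by
    intro hE
    obtain ⟨-, hz, -, -⟩ := h7 n θ hBθ hE
    exact hR ((h6 n θ).2.2 ((h6 n θ).2.1 hz))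
  have hD : ¬ Has n (FC.ofFIC θ) (Bit.D 0) := by
    intro hD
    obtain ⟨-, hz, -, -⟩ := h8 n θ hBθ hD
    exact hR ((h6 n θ).2.2 ((h6 n θ).2.1 hz))
  obtain ⟨h, t, r, hh, ht, hrr, b0, b1, b2⟩ := hA
  have st := h4 n β θ hbas hle hnc hD hE 2 B B' hok hok' hr
  -- the letter 0
  obtain ⟨-, s0⟩ := st 0 (by unfold NS; omega) ⟨0, by omega, by
    rw [b0]; unfold X; rw [List.mem_replicate]; exact ⟨by omega, rfl⟩⟩
  obtain ⟨d1, s1⟩ := st 1 (by unfold NS; omega) ⟨1, by omega, by rw [b1]; simp⟩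
  have t00 : ty B 0 0 = h := by unfold ty; rw [b0, cnt_X0]
  have t01 : ty B 0 1 = t := by
    unfold ty; rw [b1, List.count_cons]; simp [X]
  have t02 : ty B 0 2 = 0 := by unfold ty; rw [b2, cnt_Y0]
  have t10 : ty B 1 0 = 0 := by unfold ty; rw [b0, cnt_X1]
  have t11 : ty B 1 1 = 1 := by
    unfold ty; rw [b1, List.count_cons]; simp [X, List.count_replicate]
  have c0 : ty B' 0 0 ≠ 1 ∧ ty B' 0 0 ≠ 0 := by
    have := (s0 0 (by omega)).1 (by intro p hp; omega)
    rw [t00] at this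
    exact ⟨fun hc => by have := this.1.2 hc; omega, fun hc => by have := this.2.1.2 hc; omega⟩
  have c1 : ty B' 0 1 ≠ 0 ∧ ty B' 0 2 = 0 := by
    have := (s0 1 (by omega)).2.1 (by
      intro q hq hq2
      have : q = 2 := by omega
      subst this
      exact t02)
    rw [t01] at this
    exact ⟨fun hc => by have := this.1.2 hc; omega, this.2 2 (by omega) (by omega)⟩
  have c2 : ty B' 1 1 = 1 ∧ ty B' 1 0 = 0 := by
    have := (s1 1 (by omega)).1 (by
      intro p hp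
      have : p = 0 := by omega
      subst this
      exact t10)
    exact ⟨this.1.1 t11, this.2.2 0 (by omega)⟩
  rw [deg2] at d1
  have c3 : 1 ≤ ty B' 1 2 := by omega
  -- the letters
  have hlet : ∀ j ≤ 2, ∀ c ∈ B' j, c = 0 ∨ c = 1 := by
    intro j hj c hc
    obtain ⟨i, hi, hci⟩ := hS' c ⟨j, hj, hc⟩
    rcases le2 hi with rfl | rfl | rfl <;> simp [jrpB0] at hci <;> omega
  have f0 := (h5.1 (B' 0) (hlet 0 (by omega))).2.1 c2.2
  obtain ⟨s', t', f1, f1'⟩ := (h5.1 (B' 1) (hlet 1 (by omega))).1 c2.1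
  have f2 := (h5.1 (B' 2) (hlet 2 (by omega))).2.2 c1.2
  have g0 : 2 ≤ (B' 0).count 0 := by
    have := c0
    unfold ty at this
    omega
  have g1 : 1 ≤ s' + t' := by
    have := c1.1
    unfold ty at this
    omega
  have g2 : 1 ≤ (B' 2).count 1 := c3
  rcases Nat.eq_zero_or_pos s' with hs | hs
  · subst hs
    exact ⟨(B' 0).count 0, t', (B' 2).count 1, g0, by omega, g2, f0, by simpa using f1, f2⟩
  · exfalso
    apply hR
    refine h9 n θ hBθ h ((B' 0).count 0) t s' t' r ((B' 2).count 1) hh g0 ht hs hrr g2 ?_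
    rw [asm2, asm2, b0, b1, b2, f1] at hr
    rw [← f0, ← f2]
    simpa only [List.append_assoc, List.cons_append] using hr

end Pool.Agent.MWGR.H7
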