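import Pool.Agent.MWGR.StmtsD

/-!
# Row NTD of block MWGR
-/

namespace Pool.Agent.MWGR.H7D

open Pool.Agent.Helper14_MV Pool.Agent.Helper2_MV Pool.Agent.MVO Pool.Agent.MWL Pool.Agent.MWS
  Pool.Agent.MWH Pool.Agent.MWGR

theorem tr {η : FIC} {l l1 l2 : List ℕ} (h : RR η l l1) (h' : RR η l1 l2) : RR η l l2 :=
  η.trans h h'

theorem fm_X (g : ℕ → List ℕ) (hg : g 0 = [0]) (k : ℕ) : (X k).flatMap g = X k := by
  unfold X
  induction k with
  | zero => rfl
  | succ k ih => rw [List.replicate_succ, List.flatMap_cons, ih, hg]; rfl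

theorem X_add (a b : ℕ) : X (a + b) = X a ++ X b := by
  unfold X
  rw [List.replicate_append_replicate]

theorem one_notMem_X (k : ℕ) : 1 ∉ X k := by
  intro h
  have := List.eq_of_mem_replicate h
  omega

theorem two_notMem_X (k : ℕ) : 2 ∉ X k := by
  intro h
  have := List.eq_of_mem_replicate h
  omega

theorem filter_X (p : ℕ → Bool) (hp : p 0 = true) (k : ℕ) : (X k).filter p = X k := by
  rw [List.filter_eq_self]
  intro a ha
  rw [List.eq_of_mem_replicate ha, hp]

theorem ntd (h1 : ExgStmt) (h2 : NtaStmt) : NtdStmt := by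
  intro n θ hB i j i' j' m m' hm hm' h
  have hn := hB.pos
  obtain ⟨k, rfl⟩ : ∃ k, n = k + 1 := ⟨n - 1, by omega⟩
  have ek : k + 1 - 1 = k := by omega
  -- multiplicity one
  have a1 : RR θ (X i ++ 1 :: (X j ++ [2, 1])) (X i' ++ 1 :: (X j' ++ [2, 1])) := by
    have := h2 (k + 1) θ hB (X i) (X j) [] (X i') (X j') [] 1 2 m m' hm hm' (by decide)
      (by
        intro D hD
        simp only [List.mem_cons, List.not_mem_nil, or_false] at hD
        rcases hD with rfl | rfl | rfl | rfl | rfl | rfl <;>
          first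
            | exact ⟨one_notMem_X _, two_notMem_X _⟩
            | exact ⟨by simp, by simp⟩)
      (by simpa [Y] using h)
    exact this
  -- general exponents
  have a2 : ∀ u v : ℕ, RR θ (X (i + u) ++ 1 :: (X (j + v) ++ [2, 1]))
      (X (i' + u) ++ 1 :: (X (j' + v) ++ [2, 1])) := by
    intro u v
    have b1 := (RR.refl (β := θ) (X u)).append
      (a1.sub (fun c => if c = 2 then X v ++ [2] else [c]))
    simp only [List.flatMap_append, List.flatMap_cons, List.flatMap_nil] at b1
    rw [fm_X _ (by simp), fm_X _ (by simp), fm_X _ (by simp), fm_X _ (by simp)] at b1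
    have e1 : X (i + u) ++ 1 :: (X (j + v) ++ [2, 1]) =
        X u ++ (X i ++ 1 :: (X j ++ (X v ++ [2, 1]))) := by
      rw [Nat.add_comm i u, X_add, X_add]
      simp only [List.append_assoc, List.cons_append, List.nil_append]
    have e2 : X (i' + u) ++ 1 :: (X (j' + v) ++ [2, 1]) =
        X u ++ (X i' ++ 1 :: (X j' ++ (X v ++ [2, 1]))) := by
      rw [Nat.add_comm i' u, X_add, X_add]
      simp only [List.append_assoc, List.cons_append, List.nil_append]
    rw [e1, e2]
    simpa using b1
  -- the total exponents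
  have a3 : RR θ (X (i + j)) (X (i' + j')) := by
    have b1 := a1.filter (fun c => c == 0)
    simp only [List.filter_append, List.filter_cons, List.filter_nil] at b1
    rw [filter_X _ (by simp), filter_X _ (by simp), filter_X _ (by simp),
      filter_X _ (by simp)] at b1
    rw [X_add, X_add]
    simpa using b1
  -- the choice of the exponents
  have hA := a2 ((k + 1) + k * i') (k * j + (k + 1) * (i' + 1))
  have eA1 : i + ((k + 1) + k * i') = (k + 1) + (i + k * i') := by ring
  have eA2 : j' + (k * j + (k + 1) * (i' + 1)) = (i' + j') + (k * j + (k + 1) + k * i') := by ring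
  rw [eA1, eA2] at hA
  have hB2 : RR θ (X (i' + ((k + 1) + k * i')) ++
      1 :: (X ((i' + j') + (k * j + (k + 1) + k * i')) ++ [2, 1]))
      (X (i' + ((k + 1) + k * i')) ++
      1 :: (X ((i + j) + (k * j + (k + 1) + k * i')) ++ [2, 1])) := by
    have b1 := (RR.refl (β := θ) (X (i' + ((k + 1) + k * i')) ++ [1])).append
      (a3.symm.append (RR.refl (β := θ) (X (k * j + (k + 1) + k * i') ++ [2, 1])))
    rw [X_add (i' + j'), X_add (i + j)]
    simpa only [List.append_assoc, List.cons_append, List.nil_append] using b1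
  have hC := tr hA hB2
  have eC : (i + j) + (k * j + (k + 1) + k * i') = ((k + 1) + (i + k * i')) + (k + 1) * j := by ring
  have eC2 : j + (k * j + (k + 1) * (i' + 1)) = (k + 1) + (k + 1) * (j + i') := by ring
  have eC3 : i' + ((k + 1) + k * i') = (k + 1) + (k + 1) * i' := by ring
  rw [eC, eC2, eC3] at hC
  -- left side
  have hL : RR θ (X ((k + 1) + (i + k * i')) ++ 1 :: (X ((k + 1) + (k + 1) * (j + i')) ++ [2, 1]))
      (X ((k + 1) + (i + k * i')) ++ 1 :: (X (k + 1) ++ [2, 1])) := by
    have := (h1 (k + 1) θ hB (X ((k + 1) + (i + k * i')) ++ [1]) [2, 1] 0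
      ((k + 1) + (k + 1) * (j + i')) (k + 1) (by simp [Nat.ModEq])).1
      (List.mem_append_left _ (by
        unfold X
        rw [List.mem_replicate]
        exact ⟨by omega, rfl⟩)) (by omega) (by omega)
    simpa [X] using this
  -- right side
  have hR1 : RR θ (X ((k + 1) + (k + 1) * i') ++
      1 :: (X (((k + 1) + (i + k * i')) + (k + 1) * j) ++ [2, 1]))
      (X (k + 1) ++ 1 :: (X (((k + 1) + (i + k * i')) + (k + 1) * j) ++ [2, 1])) := by
    have := (h1 (k + 1) θ hB [] (1 :: (X (((k + 1) + (i + k * i')) + (k + 1) * j) ++ [2, 1])) 0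
      ((k + 1) + (k + 1) * i') (k + 1) (by simp [Nat.ModEq])).2.2.2 [1]
      (X (k + (i + k * i') + (k + 1) * j) ++ [2, 1])
      (by
        have : ((k + 1) + (i + k * i')) + (k + 1) * j = (k + (i + k * i') + (k + 1) * j) + 1 := by
          ring
        rw [this]
        unfold X
        rw [List.replicate_succ]
        simp)
      (by omega) (by omega)
      (by
        intro c hc _
        rw [List.mem_singleton] at hc
        subst hc
        simp)
    simpa [X] using this
  have hR2 : RR θ (X (k + 1) ++ 1 :: (X (((k + 1) + (i + k * i')) + (k + 1) * j) ++ [2, 1]))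
      (X (k + 1) ++ 1 :: (X ((k + 1) + (i + k * i')) ++ [2, 1])) := by
    have := (h1 (k + 1) θ hB (X (k + 1) ++ [1]) [2, 1] 0
      (((k + 1) + (i + k * i')) + (k + 1) * j) ((k + 1) + (i + k * i')) (by simp [Nat.ModEq])).1
      (List.mem_append_left _ (by
        unfold X
        rw [List.mem_replicate]
        exact ⟨by omega, rfl⟩)) (by omega) (by omega)
    simpa [X] using this
  unfold Dm
  rw [ek]
  exact tr hL.symm (tr hC (tr hR1 hR2))

end Pool.Agent.MWGR.H7D
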