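import Pool.Agent.MWGR.StmtsC

/-!
# Row SW0 of block MWGR
-/

namespace Pool.Agent.MWGR.H7

open Pool.Agent.Helper14_MV Pool.Agent.Helper2_MV Pool.Agent.MVO Pool.Agent.MWL Pool.Agent.MWS
  Pool.Agent.MWH Pool.Agent.MWGR

theorem GG_zero' (S : List ℕ) : GG S (fun _ => 0) = [] := by
  unfold GG
  rw [List.flatMap_eq_nil_iff]
  intro x _
  rfl

theorem Ok1.perm' {H pre suf l l' : List ℕ} (h : Ok1 H pre suf l) (hp : l.Perm l') :
    Ok1 H pre suf l' where
  nd := h.nd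
  hv := fun x hx => by rw [← hp.count_eq]; exact h.hv x hx
  lt := fun a ha haH => by
    rw [← hp.count_eq]
    exact h.lt a (hp.mem_iff.2 ha) haH

theorem sw0 (h1 : ExsStmt) : Sw0Stmt := by
  intro n η hB H pre suf a b haH hbH hAD S h hS hh A D hx hok
  have h0 : ∀ x ∈ S, h x ≡ 0 [MOD n] := by
    intro x hxS
    obtain ⟨e, he⟩ := hh x hxS
    refine he.trans ?_
    exact (Nat.modEq_zero_iff_dvd.2 (Dvd.intro_left e rfl))
  have h0' : ∀ x ∈ S, (fun _ : ℕ => 0) x ≡ h x [MOD n] := fun x hxS => (h0 x hxS).symm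
  have h0'' : ∀ x ∈ S, (fun _ : ℕ => 0) x ≡ (fun x => (n - 1) * h x) x [MOD n] := by
    intro x hxS
    have := (h0 x hxS).mul_left (n - 1)
    rw [Nat.mul_zero] at this
    exact this.symm
  -- step 1
  have e1 := (h1 n η hB H pre suf S (A ++ [a]) (b :: D) h (fun _ => 0)
    (fun x hxS => ⟨(hx x hxS).1, List.mem_append_left _ (hx x hxS).2.1,
      List.mem_cons_of_mem _ (hx x hxS).2.2⟩)).1
    (by simpa using hok) h0
  rw [GG_zero'] at e1
  obtain ⟨k1, r1⟩ := e1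
  have k1' : Ok1 H pre suf (A ++ a :: b :: D) := by simpa using k1
  have r1' : RR η (Wd pre suf (A ++ a :: (GG S h ++ b :: D))) (Wd pre suf (A ++ a :: b :: D)) := by
    simpa using r1
  -- step 2
  have r2 := hAD A D k1'
  have k2 : Ok1 H pre suf (A ++ b :: a :: D) :=
    Ok1.perm' k1' (List.Perm.append_left _ (List.Perm.swap _ _ _))
  -- step 3
  have e3 := (h1 n η hB H pre suf S A (b :: a :: D) (fun _ => 0) h
    (fun x hxS => ⟨(hx x hxS).1, (hx x hxS).2.1,
      List.mem_cons_of_mem _ (List.mem_cons_of_mem _ (hx x hxS).2.2)⟩)).1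
    (by rw [GG_zero']; simpa using k2) h0'
  rw [GG_zero'] at e3
  obtain ⟨k3, r3⟩ := e3
  -- step 4
  have e4 := (h1 n η hB H pre suf S (A ++ (GG S h ++ [b])) (a :: D) (fun _ => 0)
    (fun x => (n - 1) * h x)
    (fun x hxS => ⟨(hx x hxS).1, List.mem_append_left _ (hx x hxS).2.1,
      List.mem_cons_of_mem _ (hx x hxS).2.2⟩)).1
    (by rw [GG_zero']; simpa using k3) h0''
  rw [GG_zero'] at e4
  obtain ⟨k4, r4⟩ := e4
  -- step 5
  have e5 := (h1 n η hB H pre suf S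
    (A ++ (GG S h ++ b :: (GG S (fun x => (n - 1) * h x) ++ [a]))) D (fun _ => 0) h
    (fun x hxS => ⟨(hx x hxS).1, List.mem_append_left _ (hx x hxS).2.1, (hx x hxS).2.2⟩)).1
    (by rw [GG_zero']; simpa using k4) h0'
  rw [GG_zero'] at e5
  obtain ⟨k5, r5⟩ := e5
  simp only [List.append_assoc, List.cons_append, List.nil_append] at r3 r4 r5
  exact η.trans r1' (η.trans r2 (η.trans r3 (η.trans r4 r5)))

end Pool.Agent.MWGR.H7
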