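import Pool.Agent.MWGR.StmtsC

/-!
# Row SWP of block MWGR
-/

namespace Pool.Agent.MWGR.H7

open Pool.Agent.Helper14_MV Pool.Agent.Helper2_MV Pool.Agent.MVO Pool.Agent.MWL Pool.Agent.MWS
  Pool.Agent.MWH Pool.Agent.MWGR

theorem tr {η : FIC} {l l1 l2 : List ℕ} (h : RR η l l1) (h' : RR η l1 l2) : RR η l l2 :=
  η.trans h h'

/-- insertion of a power between two non-first occurrences -/
theorem swp_ins (h1 : MWGP.GapStmt) {n : ℕ} {η : FIC} (hB : BG n (RR η)) (hF : F1 n (RR η))
    (U q0 u v q3 : List ℕ) (x : ℕ) (hx : x ∈ U) :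
    RR η (U ++ (q0 ++ x :: (u ++ (v ++ x :: q3))))
      (U ++ (q0 ++ x :: (u ++ (List.replicate n x ++ (v ++ x :: q3))))) := by
  have hg := h1 n η hB.ga hB.rn
  obtain ⟨m, rfl⟩ : ∃ m, n = m + 1 := ⟨n - 1, by have := hB.pos; omega⟩
  -- the first letter
  have g1 : ∀ r : List ℕ, RR η (U ++ (q0 ++ x :: r))
      (U ++ (q0 ++ (List.replicate m x ++ (x :: x :: r)))) := by
    intro r
    have := (hg (U ++ q0) r x x (List.mem_append_left _ hx)).1
    have e : List.replicate (m + 1 + 1) x ++ r = List.replicate m x ++ (x :: x :: r) := by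
      rw [List.replicate_succ', List.replicate_succ']; simp
    rw [e] at this
    simpa using this
  -- the last letter
  have g2 : ∀ p r : List ℕ, x ∈ p → RR η (p ++ x :: r)
      (p ++ (x :: x :: (List.replicate m x ++ r))) := by
    intro p r hp
    have := (hg p r x x hp).1
    have e : List.replicate (m + 1 + 1) x ++ r = x :: x :: (List.replicate m x ++ r) := by
      rw [List.replicate_succ, List.replicate_succ]; simp
    rw [e] at this
    exact this
  have w1 : ∀ t : List ℕ, RR η (U ++ (q0 ++ x :: (u ++ (t ++ (v ++ x :: q3)))))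
      ((U ++ (q0 ++ List.replicate m x)) ++
        (([x, x] ++ (u ++ (t ++ (v ++ [x, x])))) ++ (List.replicate m x ++ q3))) := by
    intro t
    have a1 := g1 (u ++ (t ++ (v ++ x :: q3)))
    have a2 := g2 (U ++ (q0 ++ (List.replicate m x ++ (x :: x :: (u ++ (t ++ v)))))) q3
      (List.mem_append_left _ hx)
    have a3 : RR η _ _ := tr a1 (by simpa using a2)
    simpa using a3
  have f1 := (RR.refl (β := η) (U ++ (q0 ++ List.replicate m x))).append
    ((RR.sub (fun i => if i = 0 then [x] else if i = 2 then u else if i = 3 then v else []) hF).append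
      (RR.refl (List.replicate m x ++ q3)))
  have fm : ∀ k : ℕ, (List.replicate k 0).flatMap
      (fun i => if i = 0 then [x] else if i = 2 then u else if i = 3 then v else []) =
        List.replicate k x := by
    intro k
    induction k with
    | zero => rfl
    | succ k ih => rw [List.replicate_succ, List.flatMap_cons, ih]; rfl
  have f2 : RR η ((U ++ (q0 ++ List.replicate m x)) ++
        (([x, x] ++ (u ++ ([] ++ (v ++ [x, x])))) ++ (List.replicate m x ++ q3)))
      ((U ++ (q0 ++ List.replicate m x)) ++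
        (([x, x] ++ (u ++ (List.replicate (m + 1) x ++ (v ++ [x, x])))) ++
          (List.replicate m x ++ q3))) := by
    unfold X at f1
    rw [List.flatMap_append, List.flatMap_append, fm] at f1
    simpa using f1
  have := tr (w1 []) (tr f2 (RR.symm (w1 (List.replicate (m + 1) x))))
  simpa using this

theorem rp_eq (W : List ℕ) (g : ℕ → List ℕ) (hg : g 0 = W) (m : ℕ) :
    (X m).flatMap g = rp m W := by
  unfold X rp
  induction m with
  | zero => rfl
  | succ m ih =>
    rw [List.replicate_succ, List.flatMap_cons, ih, hg, List.replicate_succ, List.flatten_cons]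

theorem swp (h1 : MWGP.GapStmt) : SwpStmt := by
  intro n c η hB hE hF H pre suf a b hsub A D W hW hok
  -- the new tail
  obtain ⟨s1, s2, hs⟩ : ∃ s1 s2 : List ℕ, ∀ U : List ℕ, a ∈ U → b ∈ U →
      RR η (U ++ suf) (U ++ (s1 ++ a :: b :: s2)) := by
    obtain ⟨m, hm⟩ : ∃ m, n = m + 1 := ⟨n - 1, by have := hB.pos; omega⟩
    rcases hsub with hsub | hsub
    · rw [List.cons_sublist_iff] at hsub
      obtain ⟨r1, r2, rfl, ha1, hsub⟩ := hsub
      rw [List.cons_sublist_iff] at hsub
      obtain ⟨r3, r4, rfl, hb1, hsub⟩ := hsub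
      rw [List.singleton_sublist] at hsub
      obtain ⟨q0, q1', rfl⟩ := List.append_of_mem ha1
      obtain ⟨q1, q2', rfl⟩ := List.append_of_mem hb1
      obtain ⟨q2, q3, rfl⟩ := List.append_of_mem hsub
      refine ⟨q0 ++ a :: (q1' ++ q1 ++ List.replicate m a), q2' ++ q2 ++ a :: q3, ?_⟩
      intro U ha hb
      have := swp_ins h1 hB hF U q0 (q1' ++ q1) (b :: (q2' ++ q2)) q3 a ha
      rw [hm, List.replicate_succ'] at this
      simpa using this
    · rw [List.cons_sublist_iff] at hsub
      obtain ⟨r1, r2, rfl, hb1, hsub⟩ := hsub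
      rw [List.cons_sublist_iff] at hsub
      obtain ⟨r3, r4, rfl, ha1, hsub⟩ := hsub
      rw [List.singleton_sublist] at hsub
      obtain ⟨q0, q1', rfl⟩ := List.append_of_mem hb1
      obtain ⟨q1, q2', rfl⟩ := List.append_of_mem ha1
      obtain ⟨q2, q3, rfl⟩ := List.append_of_mem hsub
      refine ⟨q0 ++ b :: (q1' ++ q1), List.replicate m b ++ (q2' ++ q2 ++ b :: q3), ?_⟩
      intro U ha hb
      have := swp_ins h1 hB hF U q0 (q1' ++ q1 ++ [a]) (q2' ++ q2) q3 b hb
      rw [hm, List.replicate_succ] at this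
      simpa using this
  -- the exchange
  have e1 := (RR.refl (β := η) (pre ++ A)).append
    ((RR.sub (fun i => if i = 0 then W else if i = 1 then [a] else if i = 2 then [b] else
      if i = 3 then D ++ s1 else []) hE).append (RR.refl s2))
  simp only [List.flatMap_append, List.flatMap_cons, List.flatMap_nil] at e1
  rw [rp_eq W _ (by simp), rp_eq W _ (by simp), rp_eq W _ (by simp)] at e1
  have u1 := hs (pre ++ (A ++ (rp n W ++ a :: (rp (n + c) W ++ b :: (rp n W ++ D)))))
    (by simp) (by simp)
  have u2 := hs (pre ++ (A ++ (rp (n + c) W ++ b :: (rp (n + (n - 1) * c) W ++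
          a :: (rp (n + c) W ++ D))))) (by simp) (by simp)
  have e2 : RR η ((pre ++ (A ++ (rp n W ++ a :: (rp (n + c) W ++ b :: (rp n W ++ D))))) ++
      (s1 ++ a :: b :: s2)) ((pre ++ (A ++ (rp (n + c) W ++ b :: (rp (n + (n - 1) * c) W ++
          a :: (rp (n + c) W ++ D))))) ++ (s1 ++ a :: b :: s2)) := by
    simpa using e1
  have := tr u1 (tr e2 (RR.symm u2))
  unfold Wd
  simpa using this

end Pool.Agent.MWGR.H7
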